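import Pool.Agent.H93.RBPMain

/-!
# The population size of the reinforced branching process in the condensation case

The process is built in `Pool.Agent.H93.RBPModel` by the Ulam-Harris construction; `IsRBP` and
`Npop` are in `Pool.Agent.H93.RBPMain`, `SlowlyVaryingAtZero` is in `Pool.Agent.H93.RBPRV`.
The existence of the process is `Pool.Agent.RBP.exists_RBP`. The condition that the essential
supremum of `μ` is `1` is implied by (RV), as slowly varying functions are positive near `0`.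
-/

open MeasureTheory ProbabilityTheory Filter Topology
open scoped ENNReal

namespace Pool.Agent.Results.MP_1a55bc_pr.LogCorrection

open Pool.Agent.RBP

theorem result (β γ α : ℝ) (hβ0 : 0 < β) (hβ : β ≤ 1) (hγ0 : 0 < γ) (hγ : γ ≤ 1)
    (hβγ : 1 ≤ β + γ)
    -- `μ` is a probability measure on `(0, 1]` without atom at `1`
    (μ : Measure ℝ) [IsProbabilityMeasure μ] (hμ : μ (Set.Ioc 0 1)ᶜ = 0) (hμ1 : μ {1} = 0)
    -- condensation case
    (hcond : ∫⁻ x, ENNReal.ofReal (1 / (1 - x)) ∂μ < ENNReal.ofReal ((β + γ) / β))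
    -- (RV)
    (hα : 1 < α) (ℓ : ℝ → ℝ) (hℓ : SlowlyVaryingAtZero ℓ)
    (hRV : ∀ᶠ ε in 𝓝[>] (0 : ℝ), (μ (Set.Ioo (1 - ε) 1)).toReal = ε ^ α * ℓ ε)
    -- the process
    {Ω : Type*} [MeasurableSpace Ω] (P : Measure Ω) [IsProbabilityMeasure P] (F0 : Ω → ℝ)
    (ξ : List ℕ → ℕ → Ω → Ev) (h : IsRBP P β γ μ F0 ξ) :
    (∀ ε : ℝ, 0 < ε → Tendsto (fun t : ℝ => P {ω | Npop F0 ξ t ω = ⊤ ∨
      ε < |(Real.log (Npop F0 ξ t ω).toReal - γ * t + α * Real.log t) / Real.log t|})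
      atTop (𝓝 0)) ∧
    ∀ lam : ℝ, (∀ᵐ ω ∂P, Tendsto (fun t : ℝ => Real.log (Npop F0 ξ t ω).toReal / t)
      atTop (𝓝 lam)) → lam = γ := by
  have hμ' : μ (Set.Ioo 0 1)ᶜ = 0 := by
    have hsub : (Set.Ioo (0 : ℝ) 1)ᶜ ⊆ (Set.Ioc 0 1)ᶜ ∪ {1} := by
      intro x hx
      by_cases h1 : x = 1
      · right; exact h1
      · left
        intro hx'
        exact hx ⟨hx'.1, lt_of_le_of_ne hx'.2 h1⟩
    refine measure_mono_null hsub ?_
    exact measure_union_null hμ hμ1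
  exact ⟨fun ε hε => main_prob hβ0 hβ hγ0 hγ hβγ hμ' hcond hα hℓ hRV h hε,
    fun lam hlam => growth_rate hβ0 hβ hγ0 hγ hβγ hμ' hcond hα hℓ hRV h hlam⟩

end Pool.Agent.Results.MP_1a55bc_pr.LogCorrection
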